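import Pool.Agent.U901.GT.Core
import Pool.Agent.N60.FD.ASY

/-! The gcd recursion for prime triples: the choice of the parameters (variant of the leaf ASY of project FD). -/

set_option autoImplicit false

namespace Pool.Agent.U901.GT

open Finset Pool.Agent.R701.GD Pool.Agent.N60.FD

theorem asy {δ T V : ℝ} {N : ℕ} (hδ : 0 < δ) (hδ1 : δ ≤ 1) (hT : T = Real.log N) (hT27 : 27 ≤ T)
    (hTδ' : 16 ≤ δ * T) (hVT : T ≤ V) (hV : Real.log V ≤ δ * T / 10 ^ 4) {K D : ℕ} (hK : 1 ≤ K)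
    (hD : 1 ≤ D) (hKD : (K : ℝ) ^ 2 * D ≤ V ^ 2) :
      ∃ J M : ℕ, 1 ≤ M ∧ 16 ^ J ≤ Nat.sqrt N ∧ (2 : ℝ) ^ J ≤ (N : ℝ) ^ δ ∧
        bb K D J ^ (2 * M) < 2 ^ J ∧ δ / 5120 * (T / Real.log V) ≤ M := by
  have hT0 : 0 < T := by linarith
  have hN1 : 1 ≤ N := by
    rcases Nat.eq_zero_or_pos N with h | h
    · rw [h] at hT
      simp at hT
      linarith
    · exact h
  have hNr : (0 : ℝ) < N := by exact_mod_cast hN1
  have hV0 : 0 < V := by linarith
  have hl1 : 1 ≤ Real.log V := by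
    rw [Real.le_log_iff_exp_le hV0]
    have := Real.exp_one_lt_d9
    linarith
  have hl0 : 0 < Real.log V := by linarith
  have hl2a := Real.log_two_gt_d9
  have hl2b := Real.log_two_lt_d9
  have hl20 : 0 < Real.log 2 := by linarith
  have hexpT : Real.exp T = N := by rw [hT, Real.exp_log hNr]
  -- J
  obtain ⟨J, hJ⟩ : ∃ J : ℕ, J = ⌊δ / 8 * T / Real.log 2⌋₊ := ⟨_, rfl⟩
  have hJ1 : (J : ℝ) * Real.log 2 ≤ δ * T / 8 := by
    have h2 : (J : ℝ) ≤ δ / 8 * T / Real.log 2 := by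
      rw [hJ]
      exact Nat.floor_le (by positivity)
    rw [le_div_iff₀ hl20] at h2
    linarith
  have hJ2 : δ * T / 8 < ((J : ℝ) + 1) * Real.log 2 := by
    have h2 : δ / 8 * T / Real.log 2 < (J : ℝ) + 1 := by
      rw [hJ]
      exact Nat.lt_floor_add_one _
    rw [div_lt_iff₀ hl20] at h2
    linarith
  have hJ0 : (0 : ℝ) ≤ J := Nat.cast_nonneg J
  have hδT : δ * T ≤ T := by nlinarith
  have hpow : ∀ m : ℕ, (2 : ℝ) ^ (m * J) = Real.exp (m * (J * Real.log 2)) := by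
    intro m
    have e : (m : ℝ) * (J * Real.log 2) = ((m * J : ℕ) : ℝ) * Real.log 2 := by
      push_cast
      ring
    rw [e, Real.exp_nat_mul, Real.exp_log (by norm_num)]
  have hJa : 16 ^ J ≤ Nat.sqrt N := by
    rw [Nat.le_sqrt']
    have e : ((16 : ℕ) ^ J) ^ 2 = 2 ^ (8 * J) := by
      rw [← pow_mul, show (16 : ℕ) = 2 ^ 4 by norm_num, ← pow_mul]
      congr 1
      ring
    rw [e]
    have h3 : (2 : ℝ) ^ (8 * J) ≤ N := by
      rw [hpow, ← hexpT]
      apply Real.exp_le_exp.2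
      push_cast
      linarith
    exact_mod_cast h3
  have hJb : (2 : ℝ) ^ J ≤ (N : ℝ) ^ δ := by
    have h3 := hpow 1
    rw [one_mul, Nat.cast_one, one_mul] at h3
    rw [h3, Real.rpow_def_of_pos hNr, ← hT]
    apply Real.exp_le_exp.2
    have : 0 < δ * T := by positivity
    linarith
  have hJV : (J : ℝ) + 2 ≤ V := by nlinarith
  have hbase := ASY.bb_le hK hD (by linarith : (10 : ℝ) ≤ V) hKD hJV
  -- M
  obtain ⟨q, hq⟩ : ∃ q : ℝ, q = J * Real.log 2 / (160 * Real.log V) := ⟨_, rfl⟩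
  have hden : 0 < 160 * Real.log V := by positivity
  have hJ3 : δ * T / 16 ≤ J * Real.log 2 := by linarith
  have hq1 : δ * T / (2560 * Real.log V) ≤ q := by
    rw [hq, div_le_div_iff₀ (by positivity) hden]
    have h3 := mul_le_mul_of_nonneg_right hJ3 (by positivity : 0 ≤ 2560 * Real.log V)
    linarith
  have hq2 : 2 ≤ q := by
    refine le_trans ?_ hq1
    rw [le_div_iff₀ (by positivity)]
    linarith
  obtain ⟨M, hM⟩ : ∃ M : ℕ, M = ⌊q⌋₊ := ⟨_, rfl⟩
  have hM1 : (M : ℝ) ≤ q := by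
    rw [hM]
    exact Nat.floor_le (by linarith)
  have hM2 : q / 2 ≤ M := by
    have h3 : q < (M : ℝ) + 1 := by
      rw [hM]
      exact Nat.lt_floor_add_one _
    linarith
  have hM3 : 1 ≤ M := by
    have : (1 : ℝ) ≤ M := by linarith
    exact_mod_cast this
  refine ⟨J, M, hM3, hJa, hJb, ?_, ?_⟩
  · have e1 : ((bb K D J : ℕ) : ℝ) ^ (2 * M) ≤ (V ^ 40) ^ (2 * M) :=
      pow_le_pow_left₀ (Nat.cast_nonneg _) hbase _
    have e2 : (V ^ 40) ^ (2 * M) = V ^ (80 * M) := by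
      rw [← pow_mul]
      congr 1
      ring
    have e3 : V ^ (80 * M) < 2 ^ J := by
      rw [← Real.log_lt_log_iff (by positivity) (by positivity), Real.log_pow, Real.log_pow]
      push_cast
      have e4 : q * (160 * Real.log V) = J * Real.log 2 := by
        rw [hq, div_mul_cancel₀ _ hden.ne']
      have e5 : (M : ℝ) * (160 * Real.log V) ≤ J * Real.log 2 := by
        rw [← e4]
        exact mul_le_mul_of_nonneg_right hM1 hden.le
      have e6 : 0 < J * Real.log 2 := by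
        have : 0 < δ * T := by positivity
        linarith
      linarith
    have e4 : ((bb K D J : ℕ) : ℝ) ^ (2 * M) < 2 ^ J := by
      rw [e2] at e1
      exact e1.trans_lt e3
    exact_mod_cast e4
  · refine le_trans (le_of_eq ?_) ((div_le_div_of_nonneg_right hq1 (by norm_num : (0 : ℝ) ≤ 2)).trans hM2)
    rw [div_div, div_mul_div_comm]
    congr 1
    ring

end Pool.Agent.U901.GT
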