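import Pool.Agent.U901.GT.Asy
import Pool.Agent.N60.FD.TOP
import Pool.Agent.N60.FD.REL
import Pool.Agent.N60.FD.NEAR
import Pool.Agent.N60.FD.FIB
import Pool.Agent.N60.FD.BAD

/-! The gcd recursion for prime triples: many nearly maximal gcds (variant of TOP of project FD). -/

set_option autoImplicit false

namespace Pool.Agent.U901.GT

open Finset Pool.Agent.R701.GD Pool.Agent.N60.FD

/-- the steps `k` with `2 ≤ k ≤ n` whose gcd is at least `(k + b k) / N ^ δ` -/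
def large (N : ℕ) (a : ℕ → ℤ) (δ : ℝ) (n : ℕ) : Set ℕ :=
  {k : ℕ | 2 ≤ k ∧ k ≤ n ∧
    (((k + b k : ℕ) : ℝ)) ≤ (N : ℝ) ^ δ * (Int.gcd (a (k - 1)) ((k + b k : ℕ) : ℤ) : ℝ)}

lemma large_fin (N : ℕ) (a : ℕ → ℤ) (δ : ℝ) (n : ℕ) : (large N a δ n).Finite :=
  (Set.finite_Icc 2 n).subset fun _ hk => ⟨hk.1, hk.2.1⟩

theorem top {δ : ℝ} (hδ : 0 < δ) (hδ1 : δ ≤ 1) {N : ℕ} (hN : 27 ≤ Real.log N) {a : ℕ → ℤ}
    (ha1 : a 1 = (N : ℤ) - 6)
    (ha : ∀ n : ℕ, 2 ≤ n → a n = a (n - 1) - ((Int.gcd (a (n - 1)) ((n + b n : ℕ) : ℤ) : ℕ) : ℤ))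
    {x y : ℝ} (hx : 1 ≤ x) (hy2 : 2 ≤ y) (hxy : x * y * Real.log N ≤ (N : ℝ) ^ (δ / 10 ^ 4)) {n₀ : ℕ}
    (hn₀1 : 1 ≤ n₀) (hn₀ : (n₀ : ℝ) ≤ √(N : ℝ) * x) (hcon : (N : ℝ) / y < (N : ℝ) - a n₀) :
        1 / 10 ^ 11 * δ ^ 2 * √(N : ℝ) * (Real.log N / Real.log (x * y * Real.log N)) ^ 2 ≤
          x * y * (large N a δ n₀).ncard := by
  obtain ⟨T, hT⟩ : ∃ T, T = Real.log N := ⟨_, rfl⟩
  rw [← hT] at hN hxy ⊢
  have hT0 : 0 < T := by linarith
  have hN1 : 1 ≤ N := by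
    rcases Nat.eq_zero_or_pos N with h | h
    · rw [h] at hT
      simp at hT
      linarith
    · exact h
  have hNR : (0 : ℝ) < N := by exact_mod_cast hN1
  have hN2 : 10000 ≤ N := by
    have h1 : (10000 : ℝ) ≤ N := by
      have h2 : Real.exp T = N := by rw [hT, Real.exp_log hNR]
      rw [← h2]
      have h3 : Real.exp 27 ≤ Real.exp T := Real.exp_le_exp.2 hN
      have h4 : Real.exp 27 = Real.exp 1 ^ 27 := by
        rw [← Real.exp_nat_mul]
        norm_num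
      have h5 : (2 : ℝ) ≤ Real.exp 1 := by linarith [Real.exp_one_gt_d9]
      have h6 : (2 : ℝ) ^ 27 ≤ Real.exp 1 ^ 27 := pow_le_pow_left₀ (by norm_num) h5 27
      norm_num at h6 ⊢
      linarith
    exact_mod_cast h1
  obtain ⟨V, hV⟩ : ∃ V, V = x * y * T := ⟨_, rfl⟩
  rw [← hV] at hxy ⊢
  have hxy2 : 2 ≤ x * y := by nlinarith
  have hVT : 2 * T ≤ V := by
    rw [hV]
    exact mul_le_mul_of_nonneg_right hxy2 hT0.le
  have hV0 : 0 < V := by linarith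
  have hlV : Real.log V ≤ δ * T / 10 ^ 4 := by
    have h1 := Real.log_le_log hV0 hxy
    rw [Real.log_rpow hNR, ← hT] at h1
    linarith
  have hlV1 : 1 ≤ Real.log V := by
    rw [Real.le_log_iff_exp_le hV0]
    have := Real.exp_one_lt_d9
    linarith
  have hTδ : 16 ≤ δ * T := by
    linarith
  set s := Nat.sqrt N with hsd
  have hs : 100 ≤ s := Nat.le_sqrt.mpr (by omega)
  set K := ⌈2 * x⌉₊ with hK
  set D := ⌈y⌉₊ + 1 with hD
  have hypos : 0 < y := by linarith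
  have hKpos : 1 ≤ K := Nat.ceil_pos.mpr (by linarith)
  have hD2 : 2 ≤ D := by
    have : 0 < ⌈y⌉₊ := Nat.ceil_pos.mpr hypos
    omega
  have hyD : y ≤ D := by
    have := Nat.le_ceil y
    rw [hD]
    push_cast
    linarith
  have hx0 : 0 ≤ x := by linarith
  have hK3 : (K : ℝ) ≤ 3 * x := by
    have := Nat.ceil_lt_add_one (show 0 ≤ 2 * x by linarith)
    linarith
  have hD3 : (D : ℝ) ≤ 3 * y := by
    have := Nat.ceil_lt_add_one (show 0 ≤ y by linarith)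
    rw [hD]
    push_cast
    linarith
  have hK0 : (0 : ℝ) ≤ K := Nat.cast_nonneg _
  have hD0 : (0 : ℝ) ≤ D := Nat.cast_nonneg _
  -- the parameters
  have hpar : (K : ℝ) ^ 2 * D ≤ V ^ 2 := by
    calc (K : ℝ) ^ 2 * D ≤ (3 * x) ^ 2 * (3 * y) := by gcongr
      _ = 27 * (x ^ 2 * y) := by ring
      _ ≤ (y * T ^ 2) * (x ^ 2 * y) := by
          refine mul_le_mul_of_nonneg_right ?_ (by positivity)
          nlinarith
      _ = V ^ 2 := by rw [hV]; ring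
  obtain ⟨J, M, hM, hJ, hJN, hb, hMM⟩ := asy hδ hδ1 hT hN hTδ (by linarith : T ≤ V) hlV hKpos
    (by omega : 1 ≤ D) hpar
  have hDs : D ≤ s := by
    calc D ≤ bb K D J := D_le_bb hKpos (by omega)
      _ ≤ bb K D J ^ (2 * M) := Nat.le_self_pow (by omega) _
      _ ≤ 2 ^ J := hb.le
      _ ≤ 16 ^ J := Nat.pow_le_pow_left (by norm_num) _
      _ ≤ s := hJ
  have h6y : 6 * y ≤ N := by
    have h1 : s * s ≤ N := Nat.sqrt_le N
    have h2 : 6 * D ≤ s * s := Nat.mul_le_mul (by omega) hDs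
    have h3 : (6 : ℝ) * D ≤ N := by exact_mod_cast h2.trans h1
    linarith
  -- the first time below
  classical
  have hex : ∃ n : ℕ, 1 ≤ n ∧ (N : ℝ) / y < (N : ℝ) - a n := ⟨n₀, hn₀1, hcon⟩
  set f := Nat.find hex with hfd
  obtain ⟨hf1, hfy⟩ := Nat.find_spec hex
  rw [← hfd] at hf1 hfy
  have hfn₀ : f ≤ n₀ := Nat.find_min' hex ⟨hn₀1, hcon⟩
  have hbefore : ∀ k, 1 ≤ k → k < f → (N : ℝ) - a k ≤ N / y := by
    intro k hk1 hk2
    have := Nat.find_min hex (m := k) (by rw [← hfd]; exact hk2)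
    push Not at this
    exact this hk1
  have hNy : (N : ℝ) / y ≤ N / 2 := by gcongr
  have hhalf : ∀ k, 1 ≤ k → k < f → (N : ℤ) ≤ 2 * a k := by
    intro k hk1 hk2
    have h1 := (hbefore k hk1 hk2).trans hNy
    have h2 : (N : ℝ) ≤ 2 * a k := by linarith
    exact_mod_cast h2
  have hf2 : 2 ≤ f := by
    by_contra hlt
    have hf : f = 1 := by omega
    rw [hf, ha1] at hfy
    push_cast at hfy
    have : (6 : ℝ) ≤ N / y := by
      rw [le_div_iff₀ hypos]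
      exact h6y
    linarith
  have haf : 0 ≤ a f := by
    have h1 := ha f hf2
    have h2 := hhalf (f - 1) (by omega) (by omega)
    have hpos : 0 < a (f - 1) := by omega
    have := Int.le_of_dvd hpos (Int.gcd_dvd_left (a := a (f - 1)) (b := ((f + b f : ℕ) : ℤ)))
    linarith
  have hnn : ∀ k, 1 ≤ k → k ≤ f → 0 ≤ a k := by
    intro k hk1 hk2
    rcases hk2.eq_or_lt with h | h
    · rw [h]; exact haf
    · have := hhalf k hk1 h
      omega
  have hsR : (100 : ℝ) ≤ s := by exact_mod_cast hs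
  have hsq : Real.sqrt N ≤ s + 1 := Real.real_sqrt_le_nat_sqrt_succ
  have hfK : f ≤ K * s := by
    have e2 : 2 * x ≤ K := Nat.le_ceil _
    have e0 : (f : ℝ) ≤ n₀ := by exact_mod_cast hfn₀
    have e3 : (f : ℝ) ≤ K * s := by
      have hx0 : 0 ≤ x := by linarith
      calc (f : ℝ) ≤ n₀ := e0
        _ ≤ Real.sqrt N * x := hn₀
        _ ≤ (s + 1) * x := by gcongr
        _ ≤ (2 * s) * x := by gcongr; linarith
        _ = (2 * x) * s := by ring
        _ ≤ K * s := by gcongr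
    exact_mod_cast e3
  have hDat : Dat K D s N f (fun n => (a (n - 1)).natAbs) := by
    refine ⟨hKpos, hD2, hs, hDs, hf2, hfK, Nat.sqrt_le N, ?_, ?_, ?_, ?_, ?_⟩
    · have h1 : N ≤ s * s + s + s := Nat.sqrt_le_add N
      nlinarith
    · show (a (2 - 1)).natAbs + 6 = N
      rw [show 2 - 1 = 1 from rfl, ha1]
      omega
    · show D * (a (f + 1 - 1)).natAbs + N ≤ D * N
      rw [Nat.add_sub_cancel]
      have h1 : (N : ℝ) ≤ D * ((N : ℝ) - a f) := by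
        have e1 : (N : ℝ) / y ≤ (N : ℝ) - a f := hfy.le
        have e2 : (N : ℝ) ≤ y * ((N : ℝ) - a f) := by
          rw [div_le_iff₀ hypos] at e1
          linarith
        have e3 : 0 ≤ (N : ℝ) - a f := le_trans (by positivity) e1
        exact e2.trans (by gcongr)
      have h2 : (((a f).natAbs : ℕ) : ℝ) = a f := by
        rw [Nat.cast_natAbs, abs_of_nonneg haf]
      have h3 : (D : ℝ) * ((a f).natAbs : ℕ) + N ≤ D * N := by
        rw [h2]
        linarith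
      exact_mod_cast h3
    · intro n hn2 hnf
      show (a (n + 1 - 1)).natAbs + Nat.gcd (a (n - 1)).natAbs (v n) = (a (n - 1)).natAbs
      rw [Nat.add_sub_cancel]
      have h1 := ha n hn2
      have h2 := hnn n (by omega) hnf
      have h3 := hnn (n - 1) (by omega) (by omega)
      have h4 : Int.gcd (a (n - 1)) ((n + b n : ℕ) : ℤ) = Nat.gcd (a (n - 1)).natAbs (v n) := rfl
      rw [h4] at h1
      omega
    · intro n hn2 hnf
      show N ≤ 2 * (a (n - 1)).natAbs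
      have := hhalf (n - 1) (by omega) (by omega)
      omega
  have hc := core rel_main near_main fib_main bad_main hDat hM hJ hb
  -- the large gcds
  have hsub : (Near D s f (fun n => (a (n - 1)).natAbs) J).card ≤ (large N a δ n₀).ncard := by
    rw [← Set.ncard_coe_finset]
    refine Set.ncard_le_ncard ?_ (large_fin N a δ n₀)
    intro k hk
    rw [Finset.mem_coe, Near, mem_filter, mem_W] at hk
    obtain ⟨⟨⟨hk1, hk2⟩, -⟩, hk3⟩ := hk
    refine ⟨hk1, by omega, ?_⟩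
    have h1 : ((k + b k : ℕ) : ℝ) ≤ (Int.gcd (a (k - 1)) ((k + b k : ℕ) : ℤ) : ℝ) * 2 ^ J := by
      exact_mod_cast hk3
    calc ((k + b k : ℕ) : ℝ) ≤ (Int.gcd (a (k - 1)) ((k + b k : ℕ) : ℤ) : ℝ) * 2 ^ J := h1
      _ ≤ (Int.gcd (a (k - 1)) ((k + b k : ℕ) : ℤ) : ℝ) * (N : ℝ) ^ δ :=
          mul_le_mul_of_nonneg_left hJN (Nat.cast_nonneg _)
      _ = _ := mul_comm _ _
  obtain ⟨Λ, hΛ⟩ : ∃ Λ : ℕ, Λ = (large N a δ n₀).ncard := ⟨_, rfl⟩
  rw [← hΛ] at hsub ⊢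
  have h1 : (s : ℝ) * (M : ℝ) ^ 2 ≤ 20 * ((K : ℝ) * D) * Λ := by
    have h2 : s * M ^ 2 ≤ 20 * (K * D) * Λ := hc.trans (Nat.mul_le_mul_left _ hsub)
    exact_mod_cast h2
  have h2 : 20 * ((K : ℝ) * D) * Λ ≤ 20 * ((3 * x) * (3 * y)) * Λ := by
    have hx0 : 0 ≤ x := by linarith
    gcongr
  have h3 : √(N : ℝ) ≤ 2 * s := by linarith
  obtain ⟨R, hR⟩ : ∃ R, R = T / Real.log V := ⟨_, rfl⟩
  rw [← hR] at hMM ⊢
  have hR0 : 0 ≤ R := by
    rw [hR]
    positivity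
  have h4 : (δ / 5120 * R) ^ 2 ≤ (M : ℝ) ^ 2 := pow_le_pow_left₀ (by positivity) hMM 2
  have h5 : √(N : ℝ) * (δ / 5120 * R) ^ 2 ≤ 2 * s * (M : ℝ) ^ 2 :=
    mul_le_mul h3 h4 (by positivity) (by positivity)
  have h6 : √(N : ℝ) * (δ / 5120 * R) ^ 2 ≤ 360 * (x * y * Λ) := by linarith
  have e : √(N : ℝ) * (δ / 5120 * R) ^ 2 = 1 / 26214400 * (δ ^ 2 * √(N : ℝ) * R ^ 2) := by
    ring
  rw [e] at h6
  have h7 : 0 ≤ δ ^ 2 * √(N : ℝ) * R ^ 2 := by positivity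
  have h8 : 1 / 10 ^ 11 * δ ^ 2 * √(N : ℝ) * R ^ 2 = 1 / 10 ^ 11 * (δ ^ 2 * √(N : ℝ) * R ^ 2) := by
    ring
  rw [h8]
  nlinarith

end Pool.Agent.U901.GT
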