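import Pool.Agent.N60.FD.Stm2

/-!
# The gcd recursion for prime triples: the number of the large gcds in the Farey tree

Variants of the leaves TREE and FIN of project FD (starting files N60.FD) which count the large gcds
instead of all the steps.
-/

set_option autoImplicit false

namespace Pool.Agent.U901.GT

open Finset Pool.Agent.R701.GD Pool.Agent.N60.FD

/-- the steps of the window whose gcd is at least `2 K U v / B` -/
def Lg (K D s f : ℕ) (A : ℕ → ℕ) (U B : ℕ) : Finset ℕ :=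
  (W D s f).filter (fun k => 2 * K * U * v k ≤ g A k * B)

theorem tree {K D s N f : ℕ} {A : ℕ → ℕ} (hD : Dat K D s N f A) {L U J b Kt : ℕ} (hU : 1 ≤ U)
    (hb : 1 ≤ b) (hKt : b ^ Kt < 2 ^ J) :
    ∀ r P Q : ℕ, Kt < P + Q + r → 1 ≤ P → 1 ≤ Q → ∀ n n' : ℕ, n ∈ W D s f → n' ∈ W D s f →
      n < n' → n' ≤ n + L → (∀ k, n ≤ k → k < n' → ∀ j < J, k ∉ Bad D s f A L U j) →
      2 * K * U * v n ≤ g A n * b ^ P → 2 * K * U * v n' ≤ g A n' * b ^ Q →
      (Pool.Agent.R330.GL.S P Q Kt).card ≤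
        ((Lg K D s f A U (b ^ Kt)).filter (fun k => n < k ∧ k < n')).card := by
  classical
  intro r
  induction r with
  | zero =>
    intro P Q hK hP hQ n n' _ _ hnn _ _ _ _
    rw [Pool.Agent.R330.GL.S_empty P Q Kt hP hQ (by omega)]
    omega
  | succ r ih =>
    intro P Q hK hP hQ n n' hn hn' hnn hnL hbad h1 h2
    rcases Nat.lt_or_ge Kt (P + Q) with hlt | hge
    · rw [Pool.Agent.R330.GL.S_empty P Q Kt hP hQ hlt]
      omega
    have hnW := mem_W.1 hn
    have hnW' := mem_W.1 hn'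
    have hgn : 0 < g A n := hD.g_pos (by omega)
    have hgn' : 0 < g A n' := hD.g_pos (by omega)
    obtain ⟨μ, hμ⟩ := g_dvd_v (A := A) n
    obtain ⟨μ', hμ'⟩ := g_dvd_v (A := A) n'
    have hv : 0 < v n := by have := le_v n; omega
    have hv' : 0 < v n' := by have := le_v n'; omega
    have hμ0 : 0 < μ := by
      rcases Nat.eq_zero_or_pos μ with h | h
      · rw [h, mul_zero] at hμ
        omega
      · exact h
    have hμ0' : 0 < μ' := by
      rcases Nat.eq_zero_or_pos μ' with h | h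
      · rw [h, mul_zero] at hμ'
        omega
      · exact h
    have hKU : 1 ≤ 2 * K * U := by
      have := hD.K1
      have h3 : 0 < 2 * K * U := by positivity
      omega
    have b1 : 2 * K * U * μ ≤ b ^ P := by
      rw [hμ] at h1
      refine Nat.le_of_mul_le_mul_left ?_ hgn
      calc g A n * (2 * K * U * μ) = 2 * K * U * (g A n * μ) := by ring
        _ ≤ g A n * b ^ P := h1
    have b2 : 2 * K * U * μ' ≤ b ^ Q := by
      rw [hμ'] at h2
      refine Nat.le_of_mul_le_mul_left ?_ hgn'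
      calc g A n' * (2 * K * U * μ') = 2 * K * U * (g A n' * μ') := by ring
        _ ≤ g A n' * b ^ Q := h2
    have b3 : (2 * K * U * μ) * (2 * K * U * μ') ≤ b ^ (P + Q) := by
      rw [pow_add]
      exact Nat.mul_le_mul b1 b2
    have b4 : μ * μ' ≤ (2 * K * U * μ) * (2 * K * U * μ') :=
      Nat.mul_le_mul (Nat.le_mul_of_pos_left _ hKU) (Nat.le_mul_of_pos_left _ hKU)
    have b5 : b ^ (P + Q) ≤ b ^ Kt := Nat.pow_le_pow_right hb hge
    have hp : μ * μ' ≠ 0 := by positivity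
    set j := Nat.log 2 (μ * μ') with hj
    have hj1 : 2 ^ j ≤ μ * μ' := Nat.pow_log_le_self 2 hp
    have hj2 : μ * μ' < 2 ^ (j + 1) := Nat.lt_pow_succ_log_self (by norm_num) _
    have hjJ : j < J := by
      have h3 : 2 ^ j < 2 ^ J := by omega
      exact (Nat.pow_lt_pow_iff_right (by norm_num)).1 h3
    have hnb := hbad n le_rfl hnn j hjJ
    obtain ⟨k, hk1, hk2, hk3⟩ : ∃ k, n < k ∧ k < n' ∧ s ≤ U * (μ * μ') * g A k := by
      by_contra hcon
      push Not at hcon
      apply hnb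
      unfold Bad
      rw [mem_filter]
      exact ⟨hn, n', hn', hnn, hnL, μ, μ', hμ, hμ', hj1, hj2, hcon⟩
    have hkW : k ∈ W D s f := convex hn hn' hk1.le hk2.le
    have hkW' := mem_W.1 hkW
    have hvk := hD.v_le_Ks (n := k) hkW'.1.2
    have h3 : 2 * K * U * v k ≤ g A k * b ^ (P + Q) := by
      calc 2 * K * U * v k ≤ 2 * K * U * (2 * (K * s)) := Nat.mul_le_mul_left _ hvk
        _ ≤ 2 * K * U * (2 * (K * (U * (μ * μ') * g A k))) :=
            Nat.mul_le_mul_left _ (Nat.mul_le_mul_left _ (Nat.mul_le_mul_left _ hk3))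
        _ = g A k * ((2 * K * U * μ) * (2 * K * U * μ')) := by ring
        _ ≤ g A k * b ^ (P + Q) := Nat.mul_le_mul_left _ b3
    have i1 := ih P (P + Q) (by omega) hP (by omega) n k hn hkW hk1 (by omega)
      (fun x hx1 hx2 => hbad x hx1 (by omega)) h1 h3
    have i2 := ih (P + Q) Q (by omega) (by omega) hQ k n' hkW hn' hk2 (by omega)
      (fun x hx1 hx2 => hbad x (by omega) hx2) h3 h2
    have i3 := Pool.Agent.R330.GL.card_S_le P Q Kt hP hQ
    have hkL : k ∈ Lg K D s f A U (b ^ Kt) :=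
      mem_filter.2 ⟨hkW, h3.trans (Nat.mul_le_mul_left _ b5)⟩
    have i4 : ((Lg K D s f A U (b ^ Kt)).filter (fun x => n < x ∧ x < k)).card +
        ((Lg K D s f A U (b ^ Kt)).filter (fun x => k < x ∧ x < n')).card + 1 ≤
        ((Lg K D s f A U (b ^ Kt)).filter (fun x => n < x ∧ x < n')).card := by
      rw [← card_union_of_disjoint, ← card_insert_of_notMem (a := k)]
      · refine card_le_card fun x hx => ?_
        rw [mem_insert, mem_union, mem_filter, mem_filter] at hx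
        rw [mem_filter]
        rcases hx with rfl | ⟨h4, h5, h6⟩ | ⟨h4, h5, h6⟩
        · exact ⟨hkL, hk1, hk2⟩
        · exact ⟨h4, h5, h6.trans hk2⟩
        · exact ⟨h4, hk1.trans h5, h6⟩
      · rw [mem_union, mem_filter, mem_filter]
        rintro (⟨_, _, h⟩ | ⟨_, h, _⟩) <;> exact lt_irrefl _ h
      · rw [disjoint_left]
        intro x h4 h5
        rw [mem_filter] at h4 h5
        omega
    omega

theorem iso {D s f : ℕ} {A : ℕ → ℕ} (M L : ℕ) (hL : 1 ≤ L) (Iso : Finset ℕ)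
    (hI : ∀ n ∈ Iso, n ∈ G D s f A M ∧ ¬ ∃ n' ∈ G D s f A M, n < n' ∧ n' ≤ n + L) :
    Iso.card ≤ f / L + 1 := by
  classical
  have : Iso.card ≤ (range (f / L + 1)).card := by
    apply card_le_card_of_injOn (fun n => n / L)
    · intro n hn
      have hn' := (hI n hn).1
      rw [mem_G, mem_W] at hn'
      simp only [coe_range, Set.mem_Iio]
      exact Nat.lt_succ_of_le (Nat.div_le_div_right hn'.1.1.2)
    · intro n₁ h1 n₂ h2 heq
      have h1' := hI n₁ h1
      have h2' := hI n₂ h2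
      simp only at heq
      have key : ∀ x y : ℕ, x / L = y / L → x ∈ G D s f A M → y ∈ G D s f A M →
          (¬ ∃ n' ∈ G D s f A M, x < n' ∧ n' ≤ x + L) → ¬ x < y := by
        intro x y hxy _ hy hx2 hlt
        apply hx2
        refine ⟨y, hy, hlt, ?_⟩
        have a1 := Nat.div_add_mod x L
        have a2 := Nat.div_add_mod y L
        have a3 := Nat.mod_lt y (show 0 < L by omega)
        rw [hxy] at a1
        omega
      have k1 := key n₁ n₂ heq h1'.1 h2'.1 h1'.2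
      have k2 := key n₂ n₁ heq.symm h2'.1 h1'.1 h2'.2
      omega
  simpa using this

theorem small {K D s N f : ℕ} {A : ℕ → ℕ} (h : Dat K D s N f A) (U b : ℕ)
    (hb : 32 * K ^ 3 * D * U ≤ b) {n : ℕ} (hn : n ∈ G D s f A (8 * K * D)) :
    2 * K * U * v n ≤ g A n * b ^ 1 := by
  rw [mem_G, mem_W] at hn
  have h1 := h.v_le_Ks hn.1.1.2
  calc 2 * K * U * v n ≤ 2 * K * U * (2 * (K * s)) := Nat.mul_le_mul_left _ h1
    _ = 4 * K ^ 2 * U * s := by ring
    _ ≤ 4 * K ^ 2 * U * (8 * K * D * g A n) := Nat.mul_le_mul_left _ hn.2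
    _ = g A n * (32 * K ^ 3 * D * U) := by ring
    _ ≤ g A n * b := Nat.mul_le_mul_left _ hb
    _ = g A n * b ^ 1 := by rw [pow_one]

/-- the number of the very large gcds in terms of the bad steps and the large gcds -/
theorem fin {K D s N f : ℕ} {A : ℕ → ℕ} (h : Dat K D s N f A) {L U J b Kt : ℕ} (hL : 1 ≤ L)
    (hU : 1 ≤ U) (hb : 32 * K ^ 3 * D * U ≤ b) (hbJ : b ^ Kt < 2 ^ J) (hKt : 1 ≤ Kt) :
    (G D s f A (8 * K * D)).card * ((Pool.Agent.R330.GL.S 1 1 Kt).card + 1) ≤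
      ((f / L + 1) + ∑ j ∈ range J, (Bad D s f A L U j).card) *
        ((Pool.Agent.R330.GL.S 1 1 Kt).card + 1) + (Lg K D s f A U (b ^ Kt)).card := by
  classical
  set Low := G D s f A (8 * K * D) with hLow
  set c := (Pool.Agent.R330.GL.S 1 1 Kt).card + 1 with hc
  set Iso := Low.filter (fun n => ¬ ∃ n' ∈ Low, n < n' ∧ n' ≤ n + L) with hIso
  have hIsoc : Iso.card ≤ f / L + 1 :=
    iso (8 * K * D) L hL Iso fun n hn => by rw [hIso, mem_filter] at hn; exact hn
  set Q := Low.filter (fun n => ∃ n' ∈ Low, n < n' ∧ n' ≤ n + L) with hQ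
  have hLQ : Low.card = Q.card + Iso.card :=
    (card_filter_add_card_filter_not (s := Low) (fun n => ∃ n' ∈ Low, n < n' ∧ n' ≤ n + L)).symm
  have hκ : ∀ n ∈ Q, ∃ n', n' ∈ Low ∧ n < n' ∧ n' ≤ n + L ∧ ∀ x ∈ Low, n < x → n' ≤ x := by
    intro n hn
    rw [hQ, mem_filter] at hn
    obtain ⟨_, n₁, hn₁, hlt, hle⟩ := hn
    have hne : (Low.filter (fun x => n < x)).Nonempty := ⟨n₁, by simp [hn₁, hlt]⟩
    have hmem := (Low.filter (fun x => n < x)).min'_mem hne
    have hmin : ∀ x ∈ Low, n < x → (Low.filter (fun x => n < x)).min' hne ≤ x := by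
      intro x hx hnx
      exact min'_le _ _ (by simp [hx, hnx])
    rw [mem_filter] at hmem
    exact ⟨_, hmem.1, hmem.2, (hmin n₁ hn₁ hlt).trans hle, hmin⟩
  choose! κ k1 k2 k3 k4 using hκ
  have hQL : ∀ n ∈ Q, n ∈ Low := fun n hn => (mem_filter.1 hn).1
  set BI := Q.filter (fun n => ∃ k, n ≤ k ∧ k < κ n ∧ ∃ j < J, k ∈ Bad D s f A L U j) with hBI
  set R := Q.filter (fun n => ¬ ∃ k, n ≤ k ∧ k < κ n ∧ ∃ j < J, k ∈ Bad D s f A L U j) with hR
  have hQc : Q.card = BI.card + R.card :=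
    (card_filter_add_card_filter_not (s := Q)
      (fun n => ∃ k, n ≤ k ∧ k < κ n ∧ ∃ j < J, k ∈ Bad D s f A L U j)).symm
  -- the intervals are disjoint
  have hdis : ∀ n₁ ∈ Q, ∀ n₂ ∈ Q, ∀ k, n₁ ≤ k → k < κ n₁ → n₂ ≤ k → k < κ n₂ → n₁ = n₂ := by
    intro n₁ h1 n₂ h2 k a1 a2 a3 a4
    rcases lt_trichotomy n₁ n₂ with hlt | heq | hlt
    · have := k4 n₁ h1 n₂ (hQL n₂ h2) hlt
      omega
    · exact heq
    · have := k4 n₂ h2 n₁ (hQL n₁ h1) hlt
      omega
  have hBIc : BI.card ≤ ∑ j ∈ range J, (Bad D s f A L U j).card := by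
    have hφ : ∀ n ∈ BI, ∃ k, n ≤ k ∧ k < κ n ∧ k ∈ (range J).biUnion (Bad D s f A L U) := by
      intro n hn
      rw [hBI, mem_filter] at hn
      obtain ⟨_, k, a1, a2, j, hj, hk⟩ := hn
      exact ⟨k, a1, a2, mem_biUnion.2 ⟨j, mem_range.2 hj, hk⟩⟩
    choose! φ f1 f2 f3 using hφ
    refine le_trans ?_ card_biUnion_le
    apply card_le_card_of_injOn φ
    · intro n hn
      exact f3 n hn
    · intro n₁ h1 n₂ h2 heq
      have h1' : n₁ ∈ BI := h1
      have h2' : n₂ ∈ BI := h2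
      refine hdis n₁ (mem_filter.1 h1').1 n₂ (mem_filter.1 h2').1 (φ n₁) (f1 n₁ h1') (f2 n₁ h1') ?_ ?_
      · rw [heq]; exact f1 n₂ h2'
      · rw [heq]; exact f2 n₂ h2'
  have hb1 : 1 ≤ b := by
    have hK := h.K1
    have hD := h.D2
    refine le_trans ?_ hb
    have : 0 < 32 * K ^ 3 * D * U := by positivity
    omega
  have hlen : ∀ n ∈ R, c ≤ ((Lg K D s f A U (b ^ Kt)).filter (fun k => n ≤ k ∧ k < κ n)).card := by
    intro n hn
    rw [hR, mem_filter] at hn
    obtain ⟨hnQ, hnB⟩ := hn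
    have hnL := hQL n hnQ
    have hκL := k1 n hnQ
    have h1 := tree (L := L) h hU hb1 hbJ (Kt + 1) 1 1 (by omega) le_rfl le_rfl n (κ n)
      (mem_G.1 hnL).1 (mem_G.1 hκL).1 (k2 n hnQ) (k3 n hnQ)
      (fun k a1 a2 j hj hk => hnB ⟨k, a1, a2, j, hj, hk⟩) (small h U b hb hnL) (small h U b hb hκL)
    have hnLg : n ∈ Lg K D s f A U (b ^ Kt) :=
      mem_filter.2 ⟨(mem_G.1 hnL).1, (small h U b hb hnL).trans
        (Nat.mul_le_mul_left _ (Nat.pow_le_pow_right hb1 hKt))⟩
    have h2 : ((Lg K D s f A U (b ^ Kt)).filter (fun k => n < k ∧ k < κ n)).card + 1 ≤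
        ((Lg K D s f A U (b ^ Kt)).filter (fun k => n ≤ k ∧ k < κ n)).card := by
      rw [← card_insert_of_notMem (a := n)]
      · refine card_le_card fun x hx => ?_
        rw [mem_insert, mem_filter] at hx
        rw [mem_filter]
        rcases hx with rfl | ⟨h4, h5, h6⟩
        · exact ⟨hnLg, le_rfl, k2 x hnQ⟩
        · exact ⟨h4, h5.le, h6⟩
      · rw [mem_filter]
        rintro ⟨_, h, _⟩
        exact lt_irrefl _ h
    omega
  have hRc : R.card * c ≤ (Lg K D s f A U (b ^ Kt)).card := by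
    have h1 : R.card * c ≤
        ∑ n ∈ R, ((Lg K D s f A U (b ^ Kt)).filter (fun k => n ≤ k ∧ k < κ n)).card := by
      rw [← smul_eq_mul]
      exact card_nsmul_le_sum _ _ _ hlen
    have h2 : ∑ n ∈ R, ((Lg K D s f A U (b ^ Kt)).filter (fun k => n ≤ k ∧ k < κ n)).card =
        (R.biUnion fun n => (Lg K D s f A U (b ^ Kt)).filter (fun k => n ≤ k ∧ k < κ n)).card := by
      rw [card_biUnion]
      intro n₁ h1 n₂ h2 hne
      refine disjoint_left.2 fun k a1 a2 => ?_
      rw [mem_filter] at a1 a2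
      exact hne (hdis n₁ (mem_filter.1 h1).1 n₂ (mem_filter.1 h2).1 k a1.2.1 a1.2.2 a2.2.1 a2.2.2)
    have h3 : (R.biUnion fun n => (Lg K D s f A U (b ^ Kt)).filter (fun k => n ≤ k ∧ k < κ n)) ⊆
        Lg K D s f A U (b ^ Kt) := by
      intro k hk
      rw [mem_biUnion] at hk
      obtain ⟨n, hn, hk⟩ := hk
      exact (mem_filter.1 hk).1
    have h4 := card_le_card h3
    omega
  calc Low.card * c = (BI.card + Iso.card) * c + R.card * c := by rw [hLQ, hQc]; ring
    _ ≤ ((f / L + 1) + ∑ j ∈ range J, (Bad D s f A L U j).card) * c +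
        (Lg K D s f A U (b ^ Kt)).card := by
        refine add_le_add (Nat.mul_le_mul_right _ ?_) hRc
        omega

end Pool.Agent.U901.GT
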